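import Pool.Agent.H.MP_81d707_al.B

set_option autoImplicit false

namespace Pool.Agent.Results.MP_81d707_al.NFB

/-- A quasi-identity over the variables `ℕ`: a list of premises and a conclusion. -/
abbrev QI : Type :=
  List (FreeSemigroup ℕ × FreeSemigroup ℕ) × (FreeSemigroup ℕ × FreeSemigroup ℕ)

/-- The semigroup `T` satisfies the quasi-identity `q`. -/
def Sat (T : Type*) [Semigroup T] (q : QI) : Prop :=
  ∀ f : ℕ → T, (∀ r ∈ q.1, FreeSemigroup.lift f r.1 = FreeSemigroup.lift f r.2) →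
    FreeSemigroup.lift f q.2.1 = FreeSemigroup.lift f q.2.2

/-- `S` has a finite basis for its quasi-identities. -/
def FinitelyBased (S : Type*) [Semigroup S] : Prop :=
  ∃ B : Set QI, B.Finite ∧ (∀ r ∈ B, Sat S r) ∧
    ∀ q : QI, Sat S q → ∀ (T : Type) [Semigroup T], (∀ r ∈ B, Sat T r) → Sat T q

open Pool.Agent.H.MP_81d707_al

/-- Variables of a word. -/
def wv (w : FreeSemigroup ℕ) : Finset ℕ := (w.head :: w.tail).toFinset

/-- Variables of a quasi-identity. -/
def qv (q : QI) : Finset ℕ := ((q.2 :: q.1).map fun r => wv r.1 ∪ wv r.2).foldr (· ∪ ·) ∅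

theorem mem_foldr (l : List (Finset ℕ)) (s : Finset ℕ) (hs : s ∈ l) :
    s ⊆ l.foldr (· ∪ ·) ∅ := by
  induction l with
  | nil => cases hs
  | cons a l ih =>
    rcases List.mem_cons.1 hs with rfl | h
    · exact Finset.subset_union_left
    · exact (ih h).trans Finset.subset_union_right

theorem lift_local {S T : Type*} [Semigroup S] [Semigroup T] (U : Set T)
    (hU : ∀ x ∈ U, ∀ y ∈ U, x * y ∈ U) (φ : T → S)
    (hφ : ∀ u ∈ U, ∀ v ∈ U, φ (u * v) = φ u * φ v) (f : ℕ → T) (w : FreeSemigroup ℕ) :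
    (∀ i ∈ wv w, f i ∈ U) →
      FreeSemigroup.lift f w ∈ U ∧ φ (FreeSemigroup.lift f w) = FreeSemigroup.lift (φ ∘ f) w := by
  induction w using FreeSemigroup.recOnMul with
  | ih1 x => intro h; exact ⟨h x (by simp [wv]), rfl⟩
  | ih2 x y hx hy =>
    intro h
    have h1 := hx fun i hi => h i (by simp [wv] at hi ⊢; tauto)
    have h2 := hy fun i hi => h i (by simp [wv] at hi ⊢; tauto)
    rw [map_mul, map_mul]
    exact ⟨hU _ h1.1 _ h2.1, by rw [hφ _ h1.1 _ h2.1, h1.2, h2.2]⟩

theorem not_fb {S : Type*} [Semigroup S] (h : ∀ n, Gadget S n) : ¬ FinitelyBased S := by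
  classical
  rintro ⟨B, hB, hS, hall⟩
  obtain ⟨T, _, _, a, b, hab, h1, h2⟩ := h (hB.toFinset.sup fun q => (qv q).card)
  have := Fintype.ofFinite T
  obtain ⟨c, hc⟩ := Countable.exists_injective_nat T
  have : Nonempty T := ⟨a⟩
  let q : QI := (((Finset.univ : Finset (T × T)).toList.map fun r =>
    (FreeSemigroup.of (c r.1) * FreeSemigroup.of (c r.2), FreeSemigroup.of (c (r.1 * r.2)))),
    (FreeSemigroup.of (c a), FreeSemigroup.of (c b)))
  have hq : Sat S q := by
    intro f hf
    refine h1 (fun x => f (c x)) fun x y => ?_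
    have := hf _ (List.mem_map.2 ⟨(x, y), Finset.mem_toList.2 (Finset.mem_univ _), rfl⟩)
    simpa using this.symm
  have hT : ∀ r ∈ B, Sat T r := by
    intro r hr f hf
    obtain ⟨U, hU1, hU2, hU3⟩ := h2 ((qv r).image f) (Finset.card_image_le.trans
      (Finset.le_sup (f := fun q => (qv q).card) (hB.mem_toFinset.2 hr)))
    have hv : ∀ t ∈ r.2 :: r.1, (∀ i ∈ wv t.1, f i ∈ U) ∧ ∀ i ∈ wv t.2, f i ∈ U := by
      intro t ht
      have hs : wv t.1 ∪ wv t.2 ⊆ qv r := mem_foldr _ _ (List.mem_map.2 ⟨t, ht, rfl⟩)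
      exact ⟨fun i hi => hU1 _ (Finset.mem_image_of_mem f (hs (Finset.mem_union_left _ hi))),
        fun i hi => hU1 _ (Finset.mem_image_of_mem f (hs (Finset.mem_union_right _ hi)))⟩
    by_contra hne
    have hv0 := hv r.2 List.mem_cons_self
    obtain ⟨φ, hφ, hne'⟩ := hU3 _ (lift_local U hU2 id (fun _ _ _ _ => rfl) f _ hv0.1).1
      _ (lift_local U hU2 id (fun _ _ _ _ => rfl) f _ hv0.2).1 hne
    apply hne'
    rw [(lift_local U hU2 φ hφ f _ hv0.1).2, (lift_local U hU2 φ hφ f _ hv0.2).2]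
    refine hS r hr _ fun t ht => ?_
    have hv1 := hv t (List.mem_cons_of_mem _ ht)
    rw [← (lift_local U hU2 φ hφ f _ hv1.1).2, ← (lift_local U hU2 φ hφ f _ hv1.2).2, hf t ht]
  have := hall q hq T hT (Function.invFun c) (by
    intro r hr
    obtain ⟨t, -, rfl⟩ := List.mem_map.1 hr
    simp [Function.leftInverse_invFun hc _])
  simp only [q, FreeSemigroup.lift_of, Function.leftInverse_invFun hc _] at this
  exact hab this

theorem left_case {S : Type*} [Semigroup S] [Finite S] (e p q : S) (hpq : p ≠ q)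
    (hee : e * e = e) (hep : e * p = p) (hpe : p * e = p) (heq : e * q = q) (hqe : q * e = q)
    (hpp : p * p = p) (hqq : q * q = q) (h1 : p * q = p) (h2 : q * p = q) (n : ℕ) :
    Gadget S n := by
  have hp : e ≠ p := fun h => hpq (h1.symm.trans (by rw [← h]; exact heq))
  have hq : e ≠ q := fun h => hpq (by rw [← hep, h, h2])
  refine gadget_left (fun t => match t with
    | none => e
    | some true => p
    | some false => q) ?_ ?_ n
  · rintro (_ | _ | _) (_ | _ | _) h <;> simp_all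
  · rintro (_ | _ | _) (_ | _ | _) <;> simp [*]

theorem result {S : Type*} [Semigroup S] [Finite S] (e p q : S) (hpq : p ≠ q)
    (hee : e * e = e) (hep : e * p = p) (hpe : p * e = p) (heq : e * q = q) (hqe : q * e = q)
    (hpp : p * p = p) (hqq : q * q = q)
    (h : (p * q = p ∧ q * p = q) ∨ (p * q = q ∧ q * p = p)) : ¬ FinitelyBased S := by
  refine not_fb fun n => ?_
  rcases h with h | h
  · exact left_case e p q hpq hee hep hpe heq hqe hpp hqq h.1 h.2 n
  · have : Finite Sᵐᵒᵖ := Finite.of_equiv S MulOpposite.opEquiv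
    refine Gadget.op (left_case (MulOpposite.op e) (MulOpposite.op p) (MulOpposite.op q)
      (fun h => hpq (MulOpposite.op_injective h)) ?_ ?_ ?_ ?_ ?_ ?_ ?_ ?_ ?_ n) <;>
      rw [← MulOpposite.op_mul] <;> simp [*]

end Pool.Agent.Results.MP_81d707_al.NFB
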